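import Pool.Agent.Work.MP_ed0a9a_lc.E.GUp
import Pool.Agent.Work.MP_ed0a9a_lc.E.HMn

/-!
# Spectra of constructive models of model complete uncountably categorical theories

For an uncountably categorical, not countably categorical theory `T` in a computable relational
signature which is model complete, the finite part `SCM(T) ∩ ω` of the spectrum of constructive
models is a `Σ⁰₄` set.  This bound is exact: a set `X ⊆ ω ∪ {ω}` which contains `ω` is the
spectrum of such a theory if and only if `X ∩ ω` is `Σ⁰₄`; for sets `X` which do not contain `ω`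
this is shown if `X ∩ ω` has an infinite `Π⁰₃` subset.  The theories realising these sets are
strongly minimal.  The set `ω ∪ {ω}` is `ℕ∞`.  All definitions used in the statement are in this
file or in Mathlib.
-/

namespace Pool.Agent.Results.MP_ed0a9a_lc.ModelCompleteSpectra

open FirstOrder FirstOrder.Language

/-- The relational signature with the relation symbols `0, 1, 2, …`, the `i`-th of arity
`a i`. -/
def sig (a : ℕ → ℕ) : FirstOrder.Language.{0, 0} :=
  ⟨fun _ => Empty, fun n => {i : ℕ // a i = n}⟩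

/-- The structure `A` is constructive: it is isomorphic to a structure with universe `ℕ`
whose relations are uniformly computable (that is, whose atomic diagram is computable). -/
def Constructive (a : ℕ → ℕ) (A : Type) [SA : (sig a).Structure A] : Prop :=
  ∃ (S : (sig a).Structure ℕ) (r : ℕ → List ℕ → Bool), Computable₂ r ∧
    (∀ (i : ℕ) (v : Fin (a i) → ℕ), r i (List.ofFn v) = true ↔
      S.RelMap (n := a i) ⟨i, rfl⟩ v) ∧
    Nonempty (A ≃[sig a] ℕ)

/-- `SCM(T) = X`, for the theory `T` in the signature `sig a`: up to isomorphism, the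
countable models of `T` are the `A i`, `i ∈ ω ∪ {ω}`; `A i` is elementarily embeddable into
`A j` iff `i ≤ j` (so `A 0` is the prime model and `A ω` the countable saturated model);
and `A i` is constructive iff `i ∈ X`. -/
def HasSpectrum (a : ℕ → ℕ) (T : (sig a).Theory) (X : Set ℕ∞) : Prop :=
  ∃ (A : ℕ∞ → Type) (_ : ∀ i, (sig a).Structure (A i)),
    (∀ i, Countable (A i) ∧ A i ⊨ T) ∧
    (∀ (N : Type) [Nonempty N] [Countable N] [(sig a).Structure N], N ⊨ T →
      ∃ i, Nonempty (A i ≃[sig a] N)) ∧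
    (∀ i j, Nonempty (A i ↪ₑ[sig a] A j) ↔ i ≤ j) ∧
    ∀ i, Constructive a (A i) ↔ i ∈ X

/-- `T` is model complete: every embedding between models of `T` is elementary. -/
def ModelComplete {L : FirstOrder.Language.{0, 0}} (T : L.Theory) : Prop :=
  ∀ (M N : Type) [Nonempty M] [Nonempty N] [L.Structure M] [L.Structure N], M ⊨ T → N ⊨ T →
    ∀ (f : M ↪[L] N) (n : ℕ) (φ : L.Formula (Fin n)) (v : Fin n → M),
      φ.Realize (f ∘ v) ↔ φ.Realize v

/-- `T` is strongly minimal: its models are infinite, and every subset of a model which is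
definable with parameters is finite or cofinite. -/
def StronglyMinimal {L : FirstOrder.Language.{0, 0}} (T : L.Theory) : Prop :=
  ∀ (M : Type) [Nonempty M] [L.Structure M], M ⊨ T → Infinite M ∧
    ∀ (n : ℕ) (φ : L.Formula (Fin (n + 1))) (v : Fin n → M),
      {x | φ.Realize (Fin.snoc v x : Fin (n + 1) → M)}.Finite ∨
        {x | ¬ φ.Realize (Fin.snoc v x : Fin (n + 1) → M)}.Finite

/-- `S` is a `Σ⁰₄` set of natural numbers: `i ∈ S ↔ ∃ e, ∀ x, ∃ y, ∀ z, R i e x y z` for some
computable relation `R`. -/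
def Sigma4 (S : Set ℕ) : Prop :=
  ∃ R : ℕ → ℕ → ℕ → ℕ → ℕ → Bool,
    (Computable fun p : ℕ × ℕ × ℕ × ℕ × ℕ => R p.1 p.2.1 p.2.2.1 p.2.2.2.1 p.2.2.2.2) ∧
      ∀ i, i ∈ S ↔ ∃ e, ∀ x, ∃ y, ∀ z, R i e x y z = true

/-- `S` is a `Π⁰₃` set of natural numbers: `i ∈ S ↔ ∀ x, ∃ y, ∀ z, R i x y z` for some
computable relation `R`. -/
def Pi3 (S : Set ℕ) : Prop :=
  ∃ R : ℕ → ℕ → ℕ → ℕ → Bool,
    (Computable fun p : ℕ × ℕ × ℕ × ℕ => R p.1 p.2.1 p.2.2.1 p.2.2.2) ∧
      ∀ i, i ∈ S ↔ ∀ x, ∃ y, ∀ z, R i x y z = true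

/-- 1. If `T` is a complete and model complete theory in a computable signature which is
uncountably categorical and not countably categorical, and `X` is its spectrum of constructive
models, then `X ∩ ω` is a `Σ⁰₄` set.  2. Conversely, every `X` such that `X ∩ ω` is `Σ⁰₄` is the
spectrum of such a theory, which is moreover strongly minimal, if `ω ∈ X` or `X ∩ ω` has an
infinite `Π⁰₃` subset. -/
theorem result (X : Set ℕ∞) :
    ((∃ (a : ℕ → ℕ) (T : (sig a).Theory), Computable a ∧ T.IsComplete ∧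
        (Cardinal.aleph 1 : Cardinal.{0}).Categorical T ∧
        ¬ (Cardinal.aleph0 : Cardinal.{0}).Categorical T ∧
        ModelComplete T ∧ HasSpectrum a T X) →
      Sigma4 {i : ℕ | (i : ℕ∞) ∈ X}) ∧
    (Sigma4 {i : ℕ | (i : ℕ∞) ∈ X} →
      (⊤ ∈ X ∨ ∃ Y ⊆ {i : ℕ | (i : ℕ∞) ∈ X}, Y.Infinite ∧ Pi3 Y) →
      ∃ (a : ℕ → ℕ) (T : (sig a).Theory), Computable a ∧ T.IsComplete ∧
        (Cardinal.aleph 1 : Cardinal.{0}).Categorical T ∧
        ¬ (Cardinal.aleph0 : Cardinal.{0}).Categorical T ∧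
        StronglyMinimal T ∧ ModelComplete T ∧ HasSpectrum a T X) := by
  constructor
  · rintro ⟨a, T, ha, hc, hcat, -, hm, A, S, h1, h2, h3, h4⟩
    have h := Pool.Agent.Work.MP_ed0a9a_lc.E.sigma4_of_categorical (a := a) ha (T := T) hc hcat
      hm A S h1 h2 h3
    have h5 : {i : ℕ | (i : ℕ∞) ∈ X} =
        {i : ℕ | @Pool.Agent.Work.MP_ed0a9a_lc.HasCompCopy a (A i) (S i)} := by
      ext i
      exact (h4 i).symm
    rw [h5]
    exact h
  · intro hX h
    obtain ⟨a, T, A, S, h1, h2, h3, h4, h5, h6, h7, h8, h9, h10⟩ :=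
      Pool.Agent.Work.MP_ed0a9a_lc.E.final' X hX h
    exact ⟨a, T, h1, h2, h3, h4, h5, h6, A, S, h7, h8, h9, h10⟩

end Pool.Agent.Results.MP_ed0a9a_lc.ModelCompleteSpectra
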