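import Pool.Agent.Work.MP_ed0a9a_lc.H.Jn

/-!
# `Σ⁰₄` spectra of constructive models of uncountably categorical theories

Let `X ⊆ ω ∪ {ω}` be such that `X ∩ ω` is a `Σ⁰₄` set.  If `ω ∈ X`, or `X ∩ ω` is finite, or
`X ∩ ω` has an infinite `Π⁰₃` subset, then `X` is the spectrum of constructive models `SCM(T)` of
some complete theory `T` which is uncountably categorical and not countably categorical.  In
particular every `X` such that `X ∩ ω` is a `Π⁰₃` set is such a spectrum.  The set `ω ∪ {ω}` is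
`ℕ∞`.  All definitions used in the statement are in this file or in Mathlib.
-/

namespace Pool.Agent.Results.MP_ed0a9a_lc.Sigma4Spectra

open FirstOrder FirstOrder.Language

/-- The relational signature with the relation symbols `0, 1, 2, …`, the `i`-th of arity
`a i`. -/
def sig (a : ℕ → ℕ) : FirstOrder.Language.{0, 0} :=
  ⟨fun _ => Empty, fun n => {i : ℕ // a i = n}⟩

/-- The structure `A` is constructive: it is isomorphic to a structure with universe `ℕ`
whose relations are uniformly computable (that is, whose atomic diagram is computable). -/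
def Constructive (a : ℕ → ℕ) (A : Type) [SA : (sig a).Structure A] : Prop :=
  ∃ (S : (sig a).Structure ℕ) (r : ℕ → List ℕ → Bool), Computable₂ r ∧
    (∀ (i : ℕ) (v : Fin (a i) → ℕ), r i (List.ofFn v) = true ↔
      S.RelMap (n := a i) ⟨i, rfl⟩ v) ∧
    Nonempty (A ≃[sig a] ℕ)

/-- `SCM(T) = X`, for the theory `T` in the signature `sig a`: up to isomorphism, the
countable models of `T` are the `A i`, `i ∈ ω ∪ {ω}`; `A i` is elementarily embeddable into
`A j` iff `i ≤ j` (so `A 0` is the prime model and `A ω` the countable saturated model);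
and `A i` is constructive iff `i ∈ X`. -/
def HasSpectrum (a : ℕ → ℕ) (T : (sig a).Theory) (X : Set ℕ∞) : Prop :=
  ∃ (A : ℕ∞ → Type) (_ : ∀ i, (sig a).Structure (A i)),
    (∀ i, Countable (A i) ∧ A i ⊨ T) ∧
    (∀ (N : Type) [Nonempty N] [Countable N] [(sig a).Structure N], N ⊨ T →
      ∃ i, Nonempty (A i ≃[sig a] N)) ∧
    (∀ i j, Nonempty (A i ↪ₑ[sig a] A j) ↔ i ≤ j) ∧
    ∀ i, Constructive a (A i) ↔ i ∈ X

/-- `S` is a `Σ⁰₄` set of natural numbers: `i ∈ S ↔ ∃ e, ∀ x, ∃ y, ∀ z, R i e x y z` for some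
computable relation `R`. -/
def Sigma4 (S : Set ℕ) : Prop :=
  ∃ R : ℕ → ℕ → ℕ → ℕ → ℕ → Bool,
    (Computable fun p : ℕ × ℕ × ℕ × ℕ × ℕ => R p.1 p.2.1 p.2.2.1 p.2.2.2.1 p.2.2.2.2) ∧
      ∀ i, i ∈ S ↔ ∃ e, ∀ x, ∃ y, ∀ z, R i e x y z = true

/-- `S` is a `Π⁰₃` set of natural numbers: `i ∈ S ↔ ∀ x, ∃ y, ∀ z, R i x y z` for some
computable relation `R`. -/
def Pi3 (S : Set ℕ) : Prop :=
  ∃ R : ℕ → ℕ → ℕ → ℕ → Bool,
    (Computable fun p : ℕ × ℕ × ℕ × ℕ => R p.1 p.2.1 p.2.2.1 p.2.2.2) ∧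
      ∀ i, i ∈ S ↔ ∀ x, ∃ y, ∀ z, R i x y z = true

/-- Let `X ⊆ ω ∪ {ω}` be a set whose finite part `X ∩ ω` is `Σ⁰₄`, and assume that `ω ∈ X`, or
that `X ∩ ω` is finite, or that `X ∩ ω` has an infinite `Π⁰₃` subset.  Then `X` is the spectrum
of constructive models of a complete theory `T` in a computable signature which is
`ℵ₁`-categorical and not `ℵ₀`-categorical. -/
theorem result (X : Set ℕ∞) (hX : Sigma4 {i : ℕ | (i : ℕ∞) ∈ X})
    (h : ⊤ ∈ X ∨ {i : ℕ | (i : ℕ∞) ∈ X}.Finite ∨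
      ∃ Y ⊆ {i : ℕ | (i : ℕ∞) ∈ X}, Y.Infinite ∧ Pi3 Y) :
    ∃ (a : ℕ → ℕ) (T : (sig a).Theory), Computable a ∧ T.IsComplete ∧
      (Cardinal.aleph 1 : Cardinal.{0}).Categorical T ∧
      ¬ (Cardinal.aleph0 : Cardinal.{0}).Categorical T ∧ HasSpectrum a T X := by
  obtain ⟨a, T, A, S, h1, h2, h3, h4, h5, h6, h7, h8⟩ :=
    Pool.Agent.Work.MP_ed0a9a_lc.H.final X hX h
  exact ⟨a, T, h1, h2, h3, h4, A, S, h5, h6, h7, h8⟩

end Pool.Agent.Results.MP_ed0a9a_lc.Sigma4Spectra
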